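import Pool.Agent.Helper74.RN.St

set_option autoImplicit false

namespace Pool.Agent.Helper87.RN

open Pool.Agent.Helper74 Pool.Agent.Helper74.RN
open Pool.Agent.Helper74.WB (OP QW rl enc iv)

private theorem qw_enc {Λ : Type} (w : List ((Λ × Bool) × Bool)) : QW (w.flatMap enc) := by
  intro a ha
  rw [List.mem_flatMap] at ha
  obtain ⟨b, -, hb⟩ := ha
  unfold enc at hb
  rcases b with ⟨x, o⟩
  cases o
  · simp only [Bool.false_eq_true, if_false, List.mem_cons, List.not_mem_nil, or_false] at hb
    rcases hb with rfl | rfl <;> rfl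
  · simp only [if_true, List.mem_cons, List.not_mem_nil, or_false] at hb
    subst hb
    rfl

private theorem qw_map {Λ Λ' : Type} (e : Λ → Λ') (w : List ((Λ × Bool) × Bool)) (h : QW w) :
    QW (w.map (rl e)) := by
  intro a ha
  rw [List.mem_map] at ha
  obtain ⟨b, hb, rfl⟩ := ha
  exact h b hb

private theorem enc_ne {Λ : Type} (a : (Λ × Bool) × Bool) : enc a ≠ [] := by
  unfold enc
  simp

private theorem flatMap_ne {α β : Type} (f : α → List β) (hf : ∀ a, f a ≠ []) (l : List α)
    (hl : l ≠ []) : l.flatMap f ≠ [] := by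
  cases l with
  | nil => exact absurd rfl hl
  | cons a l =>
    rw [List.flatMap_cons]
    intro h
    exact hf a (List.append_eq_nil_iff.1 h).1

theorem hRTA (hKKT : StKKT) (hENC : WB.StENC) (hREL : WB.StREL) : StRTA := by
  intro G R hR Λ hΛ
  obtain ⟨g, hg⟩ := hR
  obtain ⟨hk₀, hk⟩ := hKKT G R g hg
  obtain ⟨e, he⟩ := exists_injective_nat (Λ × Bool)
  refine ⟨fun a => ((enc a).map (rl e)).flatMap (kk g), ?_, ?_⟩
  · intro a
    refine flatMap_ne (kk g) hk₀ _ ?_
    intro h
    exact enc_ne a (List.map_eq_nil_iff.1 h)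
  · intro w
    have e1 : (w.flatMap fun a => ((enc a).map (rl e)).flatMap (kk g)) =
        ((w.flatMap enc).map (rl e)).flatMap (kk g) := by
      rw [List.map_flatMap]
      simp only [List.flatMap_assoc]
    rw [e1]
    have hq : QW ((w.flatMap enc).map (rl e)) := qw_map e _ (qw_enc w)
    rw [hENC Λ w, hREL (Λ × Bool) ℕ e he]
    exact hk _ hq

end Pool.Agent.Helper87.RN
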